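import Pool.Agent.H14.Median

set_option autoImplicit false

namespace Pool.Agent.Results.MP_17c227_co.Counter

open Pool.Agent.H14

theorem result :
    ¬ ∀ (d : ℝ), 2 ≤ d → ∀ (n : ℕ) (G : SimpleGraph (Fin n)) [DecidableRel G.Adj], 1 ≤ n →
      (2 * (G.edgeFinset.card : ℝ)) / (n : ℝ) ≤ d →
      ∀ (hA : (G.adjMatrix ℝ).IsHermitian) (i : Fin (Fintype.card (Fin n))),
        (i.val + 1 = (n + 1) / 2 ∨ i.val + 1 = (n + 2) / 2) →
        |hA.eigenvalues₀ i| ≤ Real.sqrt (d - 1) := by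
  intro h
  have hA : (Median.G.adjMatrix ℝ).IsHermitian := by
    ext i j
    simp [SimpleGraph.adjMatrix_apply, SimpleGraph.adj_comm]
  have h1 := h (63 / 13) (by norm_num) 26 Median.G (by norm_num)
    (by rw [Median.edges]; norm_num) hA ⟨13, by simp⟩ (Or.inr rfl)
  have h2 := Spec.sorted_lt hA (-1.97) 13 (Median.many hA) ⟨13, by simp⟩ (by simp)
  have h3 : Real.sqrt (63 / 13 - 1) < 1.97 := by
    rw [Real.sqrt_lt' (by norm_num)]
    norm_num
  have h4 := neg_abs_le (hA.eigenvalues₀ ⟨13, by simp⟩)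
  linarith

end Pool.Agent.Results.MP_17c227_co.Counter
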